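import Mathlib

set_option autoImplicit false

open Classical in
theorem Pool.Agent.W400.HL.orth {α : Type*} (S : Finset α) (z w : α → ℂ) (d : ℕ) (hd : 0 < d)
    (hz : ∀ i ∈ S, z i ^ d = 1) :
    ∑ a ∈ Finset.range d, ‖∑ i ∈ S, z i ^ a * w i‖ ^ 2 ≤
      d * ∑ p ∈ S ×ˢ S, if z p.1 = z p.2 then ‖w p.1‖ * ‖w p.2‖ else 0 := by
  have hn : ∀ i ∈ S, ‖z i‖ = 1 := by
    intro i hi
    have h := congrArg norm (hz i hi)
    rw [norm_pow, norm_one] at h
    exact (pow_eq_one_iff_of_nonneg (norm_nonneg _) hd.ne').1 h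
  have hc : ∀ i ∈ S, z i * (starRingEnd ℂ) (z i) = 1 := by
    intro i hi
    rw [Complex.mul_conj, Complex.normSq_eq_norm_sq, hn i hi]
    simp
  have hgeo : ∀ i ∈ S, ∀ j ∈ S, ∑ a ∈ Finset.range d, (z i * (starRingEnd ℂ) (z j)) ^ a =
      if z i = z j then (d : ℂ) else 0 := by
    intro i hi j hj
    split_ifs with h
    · rw [h, hc j hj]
      simp
    · have h1 : z i * (starRingEnd ℂ) (z j) ≠ 1 := by
        intro h2
        apply h
        calc z i = z i * (z j * (starRingEnd ℂ) (z j)) := by rw [hc j hj, mul_one]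
          _ = (z i * (starRingEnd ℂ) (z j)) * z j := by ring
          _ = z j := by rw [h2, one_mul]
      have h3 : (z i * (starRingEnd ℂ) (z j)) ^ d = 1 := by
        rw [mul_pow, ← map_pow, hz i hi, hz j hj]
        simp
      have h4 := geom_sum_mul (z i * (starRingEnd ℂ) (z j)) d
      rw [h3, sub_self] at h4
      exact (mul_eq_zero.1 h4).resolve_right (sub_ne_zero.2 h1)
  have hexp : ((∑ a ∈ Finset.range d, ‖∑ i ∈ S, z i ^ a * w i‖ ^ 2 : ℝ) : ℂ) =
      ∑ p ∈ S ×ˢ S, (w p.1 * (starRingEnd ℂ) (w p.2)) *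
        (if z p.1 = z p.2 then (d : ℂ) else 0) := by
    push_cast
    have h1 : ∀ a ∈ Finset.range d, ((‖∑ i ∈ S, z i ^ a * w i‖ : ℂ)) ^ 2 =
        ∑ p ∈ S ×ˢ S, (w p.1 * (starRingEnd ℂ) (w p.2)) *
          (z p.1 * (starRingEnd ℂ) (z p.2)) ^ a := by
      intro a _
      rw [← Complex.mul_conj', map_sum, Finset.sum_mul_sum, ← Finset.sum_product']
      refine Finset.sum_congr rfl fun p _ => ?_
      rw [map_mul, map_pow, mul_pow]
      ring
    rw [Finset.sum_congr rfl h1, Finset.sum_comm]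
    refine Finset.sum_congr rfl fun p hp => ?_
    rw [Finset.mem_product] at hp
    rw [← Finset.mul_sum, hgeo p.1 hp.1 p.2 hp.2]
  have h0 : 0 ≤ ∑ a ∈ Finset.range d, ‖∑ i ∈ S, z i ^ a * w i‖ ^ 2 := by positivity
  have h5 : ∑ a ∈ Finset.range d, ‖∑ i ∈ S, z i ^ a * w i‖ ^ 2 =
      ‖((∑ a ∈ Finset.range d, ‖∑ i ∈ S, z i ^ a * w i‖ ^ 2 : ℝ) : ℂ)‖ := by
    rw [Complex.norm_real, Real.norm_of_nonneg h0]
  rw [h5, hexp, Finset.mul_sum]
  refine (norm_sum_le _ _).trans (Finset.sum_le_sum fun p _ => ?_)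
  rw [norm_mul, norm_mul, RCLike.norm_conj]
  split_ifs
  · rw [Complex.norm_natCast]
    linarith [mul_comm (‖w p.1‖ * ‖w p.2‖) (d : ℝ)]
  · simp
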